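import Pool.Agent.H670MX.Stm

set_option autoImplicit false

open Finset Filter MeasureTheory Topology

namespace Pool.Agent.H355R3.HAU

open scoped ENNReal NNReal

open Classical in
/-- the cover -/
noncomputable def cov (B : ℕ → ℕ → Prop) (K : ℕ) (p : ℕ × ℕ) : Set ℝ :=
  if p.2 < 2 ^ (K + 1 + p.1) ∧ B (K + 1 + p.1) p.2 then
    Set.Icc ((p.2 : ℝ) / 2 ^ (K + 1 + p.1)) (((p.2 : ℝ) + 1) / 2 ^ (K + 1 + p.1)) else ∅

theorem diam_Icc' (i k : ℕ) :
    Metric.ediam (Set.Icc ((i : ℝ) / 2 ^ k) (((i : ℝ) + 1) / 2 ^ k)) = ENNReal.ofReal (((1 : ℝ) / 2) ^ k) := by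
  rw [Real.ediam_Icc]
  congr 1
  rw [one_div_pow]
  ring

theorem hau : Pool.Agent.H670MX.S_HAU := by
  classical
  intro δ C hδ hδ2 hC B hB
  set E : Set ℝ := {x : ℝ | ∃ᶠ k : ℕ in atTop, ∃ i : ℕ, i < 2 ^ k ∧ B k i ∧
    (i : ℝ) / 2 ^ k ≤ x ∧ x < ((i : ℝ) + 1) / 2 ^ k} with hE
  refine ENNReal.le_of_forall_pos_le_add ?_
  intro ε hε _
  set d : ℝ≥0 := (1 - 2 * δ).toNNReal + ε with hd
  have hdr : (d : ℝ) = (1 - 2 * δ) + ε := by
    rw [hd, NNReal.coe_add, Real.coe_toNNReal _ (by linarith)]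
  have hgoal : ENNReal.ofReal (1 - 2 * δ) + (ε : ℝ≥0∞) = (d : ℝ≥0∞) := by
    rw [hd, ENNReal.coe_add]; rfl
  rw [hgoal]
  have hεr : (0 : ℝ) < ε := hε
  have hdpos : (0 : ℝ) < d := by rw [hdr]; linarith
  apply dimH_le_of_hausdorffMeasure_ne_top
  -- the summable majorant
  set r : ℝ := (2 : ℝ) ^ (-(ε : ℝ)) with hr
  have hr0 : 0 < r := Real.rpow_pos_of_pos (by norm_num) _
  have hr1 : r < 1 := Real.rpow_lt_one_of_one_lt_of_neg (by norm_num) (by linarith)
  set g : ℕ → ℝ := fun k => C * ((k : ℝ) ^ 2 * r ^ k) with hg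
  have hgs : Summable g := by
    apply Summable.mul_left
    exact summable_pow_mul_geometric_of_norm_lt_one 2 (by rw [Real.norm_of_nonneg hr0.le]; exact hr1)
  have hg0 : ∀ k, 0 ≤ g k := fun k => by simp only [hg]; positivity
  have hM : ∑' k, ENNReal.ofReal (g k) ≠ ⊤ := hgs.tsum_ofReal_ne_top
  -- the bound for one level
  have hlev : ∀ k : ℕ, 1 ≤ k → ∀ T : Finset ℕ, (∀ i ∈ T, i < 2 ^ k ∧ B k i) →
      (T.card : ℝ) * (((1 : ℝ) / 2) ^ k) ^ (d : ℝ) ≤ g k := by
    intro k hk T hT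
    have h1 := hB k hk T hT
    have h2 : (((1 : ℝ) / 2) ^ k) ^ (d : ℝ) = (2 : ℝ) ^ (-((k : ℝ) * d)) := by
      rw [← Real.rpow_natCast, ← Real.rpow_mul (by norm_num), one_div, Real.inv_rpow (by norm_num),
        ← Real.rpow_neg (by norm_num)]
    have h3 : r ^ k = (2 : ℝ) ^ (-((k : ℝ) * ε)) := by
      rw [hr, ← Real.rpow_natCast, ← Real.rpow_mul (by norm_num)]
      congr 1; ring
    rw [h2]
    simp only [hg]
    rw [h3]
    calc (T.card : ℝ) * (2 : ℝ) ^ (-((k : ℝ) * d))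
        ≤ (C * (k : ℝ) ^ 2 * 2 ^ ((k : ℝ) * (1 - 2 * δ))) * (2 : ℝ) ^ (-((k : ℝ) * d)) :=
          mul_le_mul_of_nonneg_right h1 (Real.rpow_nonneg (by norm_num) _)
      _ = C * ((k : ℝ) ^ 2 * (2 ^ ((k : ℝ) * (1 - 2 * δ)) * (2 : ℝ) ^ (-((k : ℝ) * d)))) := by ring
      _ = C * ((k : ℝ) ^ 2 * (2 : ℝ) ^ (-((k : ℝ) * ε))) := by
          rw [← Real.rpow_add (by norm_num), hdr]
          congr 3; ring
  -- the cover sums
  have hsum : ∀ K : ℕ, ∑' p : ℕ × ℕ, Metric.ediam (cov B K p) ^ (d : ℝ) ≤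
      ∑' k, ENNReal.ofReal (g k) := by
    intro K
    rw [ENNReal.tsum_prod']
    refine le_trans (ENNReal.tsum_le_tsum (g := fun k => ENNReal.ofReal (g (K + 1 + k))) ?_) ?_
    · intro k
      set T : Finset ℕ := (Finset.range (2 ^ (K + 1 + k))).filter (fun i => B (K + 1 + k) i) with hT
      have hzero : ∀ i ∉ T, Metric.ediam (cov B K (k, i)) ^ (d : ℝ) = 0 := by
        intro i hi
        have : cov B K (k, i) = ∅ := by
          unfold cov
          rw [if_neg]
          intro hc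
          apply hi
          rw [hT, Finset.mem_filter, Finset.mem_range]
          exact hc
        rw [this, Metric.ediam_empty, ENNReal.zero_rpow_of_pos hdpos]
      rw [tsum_eq_sum (s := T) hzero]
      have hone : ∀ i ∈ T, Metric.ediam (cov B K (k, i)) ^ (d : ℝ) =
          ENNReal.ofReal ((((1 : ℝ) / 2) ^ (K + 1 + k)) ^ (d : ℝ)) := by
        intro i hi
        rw [hT, Finset.mem_filter, Finset.mem_range] at hi
        have : cov B K (k, i) = Set.Icc ((i : ℝ) / 2 ^ (K + 1 + k)) (((i : ℝ) + 1) / 2 ^ (K + 1 + k)) := by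
          unfold cov
          rw [if_pos hi]
        rw [this, diam_Icc', ENNReal.ofReal_rpow_of_nonneg (by positivity) hdpos.le]
      rw [Finset.sum_congr rfl hone, Finset.sum_const, nsmul_eq_mul]
      rw [← ENNReal.ofReal_natCast, ← ENNReal.ofReal_mul (by positivity)]
      apply ENNReal.ofReal_le_ofReal
      apply hlev (K + 1 + k) (by omega) T
      intro i hi
      rw [hT, Finset.mem_filter, Finset.mem_range] at hi
      exact hi
    · exact ENNReal.tsum_comp_le_tsum_of_injective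
        (f := fun k => K + 1 + k) (fun a b h => by simpa using h) (fun k => ENNReal.ofReal (g k))
  have hmain : μH[(d : ℝ)] E ≤ ∑' k, ENNReal.ofReal (g k) := by
    refine le_trans (MeasureTheory.Measure.hausdorffMeasure_le_liminf_tsum (ι := fun _ : ℕ => ℕ × ℕ)
      (d : ℝ) E (l := atTop) (fun K : ℕ => ENNReal.ofReal (((1 : ℝ) / 2) ^ K)) ?_
      (fun K => cov B K) ?_ ?_) ?_
    · have := ENNReal.tendsto_ofReal (tendsto_pow_atTop_nhds_zero_of_lt_one
        (r := (1 : ℝ) / 2) (by norm_num) (by norm_num))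
      simpa using this
    · refine Filter.Eventually.of_forall ?_
      intro K p
      unfold cov
      split_ifs with h
      · rw [diam_Icc']
        apply ENNReal.ofReal_le_ofReal
        apply pow_le_pow_of_le_one (by norm_num) (by norm_num) (by omega)
      · simp
    · refine Filter.Eventually.of_forall ?_
      intro K x hx
      rw [hE, Set.mem_ofPred_eq, Filter.frequently_atTop] at hx
      obtain ⟨k, hk, i, hi, hBi, h1, h2⟩ := hx (K + 1)
      rw [Set.mem_iUnion]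
      refine ⟨(k - (K + 1), i), ?_⟩
      have hkk : K + 1 + (k - (K + 1)) = k := by omega
      unfold cov
      simp only [hkk]
      rw [if_pos ⟨hi, hBi⟩]
      exact ⟨h1, h2.le⟩
    · refine le_trans (Filter.liminf_le_liminf (Filter.Eventually.of_forall hsum)) ?_
      simp
  exact ne_top_of_le_ne_top hM hmain

end Pool.Agent.H355R3.HAU
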